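import Mathlib.Order.SupClosed
import Mathlib.Data.Set.Card
import Mathlib.Data.ENat.Lattice
import Mathlib.Algebra.CharP.Defs
import Mathlib.Algebra.Notation.Lemmas
import Mathlib.Topology.Separation.Regular
import Mathlib.Topology.Order.Lattice
import Mathlib.Order.CompletePartialOrder

/-!
A zero-dimensional s-complete topological semilattice with a non-closed continuous image.
-/

set_option autoImplicit false

namespace Pool.Agent.MP_3bb15c_gt

open Topology Filter Set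

/-- A countable system of basic neighbourhoods. -/
structure Balls (α : Type) where
  B : α → ℕ → Set α
  refl : ∀ x n, x ∈ B x n
  anti : ∀ x m n, m ≤ n → B x n ⊆ B x m
  opn : ∀ x n y, y ∈ B x n → ∃ m, B y m ⊆ B x n

/-- The topology given by a system of basic neighbourhoods. -/
@[reducible] def Balls.top {α : Type} (b : Balls α) : TopologicalSpace α where
  IsOpen U := ∀ x ∈ U, ∃ n, b.B x n ⊆ U
  isOpen_univ := fun _ _ => ⟨0, subset_univ _⟩
  isOpen_inter := fun U V hU hV x hx => by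
    obtain ⟨m, hm⟩ := hU x hx.1
    obtain ⟨n, hn⟩ := hV x hx.2
    exact ⟨max m n, subset_inter ((b.anti x _ _ (le_max_left _ _)).trans hm)
      ((b.anti x _ _ (le_max_right _ _)).trans hn)⟩
  isOpen_sUnion := fun s hs x hx => by
    obtain ⟨U, hU, hxU⟩ := hx
    obtain ⟨n, hn⟩ := hs U hU x hxU
    exact ⟨n, hn.trans (subset_sUnion_of_mem hU)⟩

lemma Balls.hasBasis {α : Type} (b : Balls α) (x : α) :
    (@nhds α b.top x).HasBasis (fun _ : ℕ => True) (b.B x) := by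
  let := b.top
  constructor
  intro U
  rw [mem_nhds_iff]
  constructor
  · rintro ⟨V, hVU, hV, hx⟩
    obtain ⟨n, hn⟩ := hV x hx
    exact ⟨n, trivial, hn.trans hVU⟩
  · rintro ⟨n, -, hn⟩
    exact ⟨b.B x n, hn, fun y hy => b.opn x n y hy, b.refl x n⟩

/-- A set of naturals, a level, and a flag. -/
@[ext] structure Pt where
  A : Set ℕ
  k : ℕ∞
  t : Prop

noncomputable instance : SemilatticeInf Pt where
  le a b := b.A ⊆ a.A ∧ a.k ≤ b.k ∧ (a.t → b.t)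
  le_refl a := ⟨subset_rfl, le_rfl, id⟩
  le_trans a b c h h' := ⟨h'.1.trans h.1, h.2.1.trans h'.2.1, fun x => h'.2.2 (h.2.2 x)⟩
  le_antisymm a b h h' := Pt.ext (h'.1.antisymm h.1) (h.2.1.antisymm h'.2.1)
    (propext ⟨h.2.2, h'.2.2⟩)
  inf a b := ⟨a.A ∪ b.A, a.k ⊓ b.k, a.t ∧ b.t⟩
  inf_le_left a b := ⟨subset_union_left, inf_le_left, And.left⟩
  inf_le_right a b := ⟨subset_union_right, inf_le_right, And.right⟩
  le_inf a b c h h' := ⟨union_subset h.1 h'.1, le_inf h.2.1 h'.2.1, fun x => ⟨h.2.2 x, h'.2.2 x⟩⟩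

lemma Pt.le_def {a b : Pt} : a ≤ b ↔ b.A ⊆ a.A ∧ a.k ≤ b.k ∧ (a.t → b.t) := Iff.rfl
lemma Pt.inf_A (a b : Pt) : (a ⊓ b).A = a.A ∪ b.A := rfl
lemma Pt.inf_k (a b : Pt) : (a ⊓ b).k = a.k ⊓ b.k := rfl
lemma Pt.inf_t (a b : Pt) : (a ⊓ b).t = (a.t ∧ b.t) := rfl

/-- Two sets agree below `n`. -/
def Agree (n : ℕ) (A B : Set ℕ) : Prop := ∀ i < n, i ∈ A ↔ i ∈ B

lemma Agree.refl (n : ℕ) (A : Set ℕ) : Agree n A A := fun _ _ => Iff.rfl
lemma Agree.symm {n : ℕ} {A B : Set ℕ} (h : Agree n A B) : Agree n B A :=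
  fun i hi => (h i hi).symm
lemma Agree.trans {n : ℕ} {A B C : Set ℕ} (h : Agree n A B) (h' : Agree n B C) : Agree n A C :=
  fun i hi => (h i hi).trans (h' i hi)
lemma Agree.anti {m n : ℕ} {A B : Set ℕ} (h : Agree n A B) (hmn : m ≤ n) : Agree m A B :=
  fun i hi => h i (hi.trans_le hmn)
lemma Agree.union {n : ℕ} {A B C D : Set ℕ} (h : Agree n A B) (h' : Agree n C D) :
    Agree n (A ∪ C) (B ∪ D) := fun i hi => or_congr (h i hi) (h' i hi)

/-- The coarse equivalence at scale `n`. -/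
def Coarse (n : ℕ) (x y : Pt) : Prop := Agree n x.A y.A ∧ x.k ⊓ n = y.k ⊓ n

lemma Coarse.refl (n : ℕ) (x : Pt) : Coarse n x x := ⟨Agree.refl _ _, rfl⟩
lemma Coarse.symm {n : ℕ} {x y : Pt} (h : Coarse n x y) : Coarse n y x := ⟨h.1.symm, h.2.symm⟩
lemma Coarse.trans {n : ℕ} {x y z : Pt} (h : Coarse n x y) (h' : Coarse n y z) : Coarse n x z :=
  ⟨h.1.trans h'.1, h.2.trans h'.2⟩
lemma Coarse.anti {m n : ℕ} {x y : Pt} (h : Coarse n x y) (hmn : m ≤ n) : Coarse m x y := by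
  refine ⟨h.1.anti hmn, ?_⟩
  have e : (m : ℕ∞) = (n : ℕ∞) ⊓ m := (inf_eq_right.2 (by exact_mod_cast hmn)).symm
  rw [e, ← inf_assoc, ← inf_assoc, h.2]
lemma Coarse.inf {n : ℕ} {x y z w : Pt} (h : Coarse n x y) (h' : Coarse n z w) :
    Coarse n (x ⊓ z) (y ⊓ w) := by
  refine ⟨h.1.union h'.1, ?_⟩
  rw [Pt.inf_k, Pt.inf_k, inf_inf_distrib_right, inf_inf_distrib_right y.k, h.2, h'.2]

lemma Coarse.k_eq {n m : ℕ} {x y : Pt} (h : Coarse n x y) (hx : x.k = m) (hmn : m < n) :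
    y.k = m := by
  have h2 := h.2
  have hlt : (m : ℕ∞) < n := by exact_mod_cast hmn
  rw [hx, inf_eq_left.2 hlt.le] at h2
  rcases le_total y.k n with h3 | h3
  · rw [inf_eq_left.2 h3] at h2
    exact h2.symm
  · rw [inf_eq_right.2 h3] at h2
    exact absurd h2 hlt.ne

lemma Coarse.le_k {n m : ℕ} {x y : Pt} (h : Coarse n x y) (hx : x.k = ⊤) (hy : y.k = m) :
    n ≤ m := by
  have h2 := h.2
  rw [hx, hy, top_inf_eq] at h2
  have : (n : ℕ∞) ≤ m := h2.le.trans inf_le_left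
  exact_mod_cast this

lemma exists_not_agree {A B : Set ℕ} (h : A ≠ B) : ∃ n, ¬ Agree n A B := by
  by_contra hcon
  push Not at hcon
  exact h (Set.ext fun i => hcon (i + 1) i (Nat.lt_succ_self i))

lemma exists_not_coarse {x y : Pt} (h : x.A ≠ y.A ∨ x.k ≠ y.k) : ∃ n, ¬ Coarse n x y := by
  rcases h with h | h
  · obtain ⟨n, hn⟩ := exists_not_agree h
    exact ⟨n, fun hc => hn hc.1⟩
  · by_contra hcon
    push Not at hcon
    apply h
    rcases eq_or_ne x.k ⊤ with hx | hx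
    · rcases eq_or_ne y.k ⊤ with hy | hy
      · rw [hx, hy]
      · obtain ⟨m, hm⟩ := ENat.ne_top_iff_exists.1 hy
        rw [(hcon (m + 1)).symm.k_eq hm.symm (Nat.lt_succ_self m), hm]
    · obtain ⟨m, hm⟩ := ENat.ne_top_iff_exists.1 hx
      rw [(hcon (m + 1)).k_eq hm.symm (Nat.lt_succ_self m), hm]

/-- The target semilattice. -/
def Y : Type := {p : Pt // p.t → p.k = ⊤ ∧ p.A.Finite}

/-- The source semilattice. -/
def X : Type := {p : Pt // p.t → p.k = ⊤ ∧ p.A.Finite ∧ p.A.Nonempty}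

noncomputable instance : SemilatticeInf Y := Subtype.semilatticeInf (by
  intro a b ha hb h
  refine ⟨?_, (ha h.1).2.union (hb h.2).2⟩
  rw [Pt.inf_k, (ha h.1).1, (hb h.2).1, top_inf_eq])

noncomputable instance : SemilatticeInf X := Subtype.semilatticeInf (by
  intro a b ha hb h
  refine ⟨?_, (ha h.1).2.1.union (hb h.2).2.1, (ha h.1).2.2.inl⟩
  rw [Pt.inf_k, (ha h.1).1, (hb h.2).1, top_inf_eq])

lemma Y.inf_val (a b : Y) : (a ⊓ b).1 = a.1 ⊓ b.1 := rfl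
lemma X.inf_val (a b : X) : (a ⊓ b).1 = a.1 ⊓ b.1 := rfl
lemma X.le_def {a b : X} : a ≤ b ↔ a.1 ≤ b.1 := Iff.rfl

/-- Basic neighbourhoods in the target. -/
def ballsY : Balls Y where
  B x n := {y | Coarse n x.1 y.1 ∧
    (x.1.k = ⊤ → x.1.A.Finite → (x.1.t ↔ y.1.t) ∧ (y.1.k = ⊤ → y.1.A.Finite))}
  refl x n := ⟨Coarse.refl _ _, fun _ h => ⟨Iff.rfl, fun _ => h⟩⟩
  anti x m n h y hy := ⟨hy.1.anti h, hy.2⟩
  opn x n y hy := by
    rcases eq_or_ne y.1.k ⊤ with hk | hk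
    · refine ⟨n, fun z hz => ⟨hy.1.trans hz.1, fun h1 h2 => ?_⟩⟩
      have a := hy.2 h1 h2
      have b := hz.2 hk (a.2 hk)
      exact ⟨a.1.trans b.1, b.2⟩
    · obtain ⟨m, hm⟩ := ENat.ne_top_iff_exists.1 hk
      refine ⟨max n (m + 1), fun z hz => ⟨hy.1.trans (hz.1.anti (le_max_left _ _)),
        fun h1 h2 => ?_⟩⟩
      have hz' : z.1.k = m := hz.1.k_eq hm.symm (by omega)
      have hzk : z.1.k ≠ ⊤ := by rw [hz']; exact ENat.natCast_ne_top m
      have a := hy.2 h1 h2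
      exact ⟨a.1.trans ⟨fun h => absurd (y.2 h).1 hk, fun h => absurd (z.2 h).1 hzk⟩,
        fun h => absurd h hzk⟩

/-- Basic neighbourhoods in the source. -/
def ballsX : Balls X where
  B x n := {y | Coarse n x.1 y.1 ∧
    (x.1.k = ⊤ → x.1.A.Finite →
      y = x ∨ (¬ x.1.t ∧ ∃ m : ℕ, y.1.k = m ∧ Agree m x.1.A y.1.A))}
  refl x n := ⟨Coarse.refl _ _, fun _ _ => Or.inl rfl⟩
  anti x m n h y hy := ⟨hy.1.anti h, hy.2⟩
  opn x n y hy := by
    by_cases hx : x.1.k = ⊤ ∧ x.1.A.Finite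
    · rcases hy.2 hx.1 hx.2 with rfl | ⟨ht, m, hm, hag⟩
      · exact ⟨n, subset_rfl⟩
      · refine ⟨max n (m + 1), fun z hz => ⟨hy.1.trans (hz.1.anti (le_max_left _ _)),
          fun _ _ => Or.inr ⟨ht, m, hz.1.k_eq hm (by omega),
            hag.trans (hz.1.1.anti (by omega))⟩⟩⟩
    · exact ⟨n, fun z hz => ⟨hy.1.trans hz.1, fun h1 h2 => absurd ⟨h1, h2⟩ hx⟩⟩

instance : TopologicalSpace Y := ballsY.top
instance : TopologicalSpace X := ballsX.top

lemma basisY (y : Y) : (𝓝 y).HasBasis (fun _ : ℕ => True) (ballsY.B y) := ballsY.hasBasis y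
lemma basisX (x : X) : (𝓝 x).HasBasis (fun _ : ℕ => True) (ballsX.B x) := ballsX.hasBasis x

instance : T2Space Y := by
  rw [t2Space_iff_disjoint_nhds]
  intro x y hxy
  rw [(basisY x).disjoint_iff (basisY y)]
  by_cases h : x.1.A ≠ y.1.A ∨ x.1.k ≠ y.1.k
  · obtain ⟨n, hn⟩ := exists_not_coarse h
    exact ⟨n, trivial, n, trivial, Set.disjoint_left.2 fun z h1 h2 => hn (h1.1.trans h2.1.symm)⟩
  · push Not at h
    have ht : ¬ (x.1.t ↔ y.1.t) := fun ht => hxy (Subtype.ext (Pt.ext h.1 h.2 (propext ht)))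
    have hx : x.1.k = ⊤ ∧ x.1.A.Finite := by
      by_cases hxt : x.1.t
      · exact x.2 hxt
      · have hyt : y.1.t := by tauto
        rw [h.1, h.2]
        exact y.2 hyt
    refine ⟨0, trivial, 0, trivial, Set.disjoint_left.2 fun z h1 h2 => ht ?_⟩
    exact (h1.2 hx.1 hx.2).1.trans (h2.2 (h.2 ▸ hx.1) (h.1 ▸ hx.2)).1.symm

instance : ContinuousInf Y := by
  constructor
  rw [continuous_iff_continuousAt]
  rintro ⟨x, y⟩
  rw [ContinuousAt, nhds_prod_eq,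
    ((basisY x).prod (basisY y)).tendsto_iff (basisY _)]
  intro n _
  refine ⟨(n, n), ⟨trivial, trivial⟩, ?_⟩
  rintro ⟨x', y'⟩ ⟨hx, hy⟩
  refine ⟨hx.1.inf hy.1, fun h1 h2 => ?_⟩
  have h1' : x.1.k ⊓ y.1.k = ⊤ := h1
  have h2' : (x.1.A ∪ y.1.A).Finite := h2
  rw [inf_eq_top_iff] at h1'
  rw [Set.finite_union] at h2'
  have a := hx.2 h1'.1 h2'.1
  have b := hy.2 h1'.2 h2'.2
  refine ⟨and_congr a.1 b.1, fun h3 => ?_⟩
  have h3' : x'.1.k ⊓ y'.1.k = ⊤ := h3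
  rw [inf_eq_top_iff] at h3'
  exact (a.2 h3'.1).union (b.2 h3'.2)

instance : ContinuousInf X := by
  constructor
  rw [continuous_iff_continuousAt]
  rintro ⟨x, y⟩
  rw [ContinuousAt, nhds_prod_eq,
    ((basisX x).prod (basisX y)).tendsto_iff (basisX _)]
  intro n _
  refine ⟨(n, n), ⟨trivial, trivial⟩, ?_⟩
  rintro ⟨x', y'⟩ ⟨hx, hy⟩
  refine ⟨hx.1.inf hy.1, fun h1 h2 => ?_⟩
  have h1' : x.1.k ⊓ y.1.k = ⊤ := h1
  have h2' : (x.1.A ∪ y.1.A).Finite := h2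
  rw [inf_eq_top_iff] at h1'
  rw [Set.finite_union] at h2'
  rcases hx.2 h1'.1 h2'.1 with a | ⟨a, m, hm, ha⟩ <;>
    rcases hy.2 h1'.2 h2'.2 with b | ⟨b, l, hl, hb⟩
  · left
    have a' : x' = x := a
    have b' : y' = y := b
    rw [a', b']
  · right
    have a' : x' = x := a
    subst a'
    refine ⟨fun h => b h.2, l, ?_, (Agree.refl _ _).union hb⟩
    change x'.1.k ⊓ y'.1.k = l
    have hl' : y'.1.k = l := hl
    rw [h1'.1, hl', top_inf_eq]
  · right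
    have b' : y' = y := b
    subst b'
    refine ⟨fun h => a h.1, m, ?_, ha.union (Agree.refl _ _)⟩
    change x'.1.k ⊓ y'.1.k = m
    have hm' : x'.1.k = m := hm
    rw [h1'.2, hm', inf_top_eq]
  · right
    refine ⟨fun h => a h.1, min m l, ?_,
      (ha.anti (min_le_left _ _)).union (hb.anti (min_le_right _ _))⟩
    change x'.1.k ⊓ y'.1.k = _
    have hm' : x'.1.k = m := hm
    have hl' : y'.1.k = l := hl
    rw [hm', hl']
    exact ((Nat.mono_cast (α := ℕ∞)).map_min).symm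

/-- The inclusion. -/
def incl (x : X) : Y := ⟨x.1, fun h => ⟨(x.2 h).1, (x.2 h).2.1⟩⟩

lemma incl_inf (a b : X) : incl (a ⊓ b) = incl a ⊓ incl b := rfl

lemma incl_injective : Function.Injective incl := fun _ _ h =>
  Subtype.ext (congrArg (fun y : Y => y.1) h)

lemma incl_continuous : Continuous incl := by
  rw [continuous_iff_continuousAt]
  intro x
  rw [ContinuousAt, (basisX x).tendsto_iff (basisY _)]
  intro n _
  refine ⟨n, trivial, fun y hy => ⟨hy.1, fun h1 h2 => ?_⟩⟩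
  rcases hy.2 h1 h2 with rfl | ⟨ht, m, hm, -⟩
  · exact ⟨Iff.rfl, fun _ => h2⟩
  · have hk : y.1.k ≠ ⊤ := by rw [hm]; exact ENat.natCast_ne_top m
    exact ⟨⟨fun h => absurd h ht, fun h => absurd (y.2 h).1 hk⟩, fun h => absurd h hk⟩

lemma not_isClosed_range : ¬ IsClosed (Set.range incl) := by
  intro h
  let e : Y := ⟨⟨∅, ⊤, True⟩, fun _ => ⟨rfl, Set.finite_empty⟩⟩
  have he : e ∈ closure (Set.range incl) := by
    rw [mem_closure_iff_nhds_basis (basisY e)]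
    intro n _
    refine ⟨incl ⟨⟨{n}, ⊤, True⟩, fun _ => ⟨rfl, Set.finite_singleton n,
      Set.singleton_nonempty n⟩⟩, ⟨_, rfl⟩, ⟨fun i hi => ?_, rfl⟩,
      fun _ _ => ⟨Iff.rfl, fun _ => Set.finite_singleton n⟩⟩
    simp only [incl, e, Set.mem_empty_iff_false, Set.mem_singleton_iff, false_iff]
    omega
  rw [h.closure_eq] at he
  obtain ⟨x, hx⟩ := he
  have hx' : x.1 = ⟨∅, ⊤, True⟩ := congrArg Subtype.val hx
  have := (x.2 (by rw [hx']; trivial)).2.2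
  rw [hx'] at this
  exact Set.not_nonempty_empty this

instance : T2Space X := T2Space.of_injective_continuous incl_injective incl_continuous

lemma isClosed_ballX (x : X) (n : ℕ) : IsClosed (ballsX.B x n) := by
  rw [← isOpen_compl_iff]
  intro z hz
  by_cases hc : Coarse n x.1 z.1
  swap
  · exact ⟨n, fun w hw hw' => hc (hw'.1.trans hw.1.symm)⟩
  have hz' : ¬ (x.1.k = ⊤ → x.1.A.Finite →
      z = x ∨ (¬ x.1.t ∧ ∃ m : ℕ, z.1.k = m ∧ Agree m x.1.A z.1.A)) := fun h => hz ⟨hc, h⟩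
  push Not at hz'
  obtain ⟨hxk, hxA, hne, hz2⟩ := hz'
  have top_ne : ∀ m : ℕ, (⊤ : ℕ∞) ≠ m := fun m => (ENat.natCast_ne_top m).symm
  rcases eq_or_ne z.1.k ⊤ with hk | hk
  · by_cases hA : z.1.A = x.1.A
    · refine ⟨0, fun w hw hw' => ?_⟩
      rcases hw.2 hk (hA ▸ hxA) with rfl | ⟨a, m, hm, -⟩ <;>
        rcases hw'.2 hxk hxA with b | ⟨b, l, hl, -⟩
      · exact hne b
      · exact top_ne l (hk ▸ hl)
      · subst b
        exact top_ne m (hxk ▸ hm)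
      · exact hne (Subtype.ext (Pt.ext hA (hk.trans hxk.symm)
          (propext ⟨fun h => absurd h a, fun h => absurd h b⟩)))
    · obtain ⟨i, hi⟩ := exists_not_agree hA
      refine ⟨i, fun w hw hw' => hi ?_⟩
      rcases hw'.2 hxk hxA with b | ⟨-, l, hl, hag⟩
      · subst b
        exact hw.1.1
      · exact hw.1.1.trans (hag.anti (hw.1.le_k hk hl)).symm
  · obtain ⟨m, hm⟩ := ENat.ne_top_iff_exists.1 hk
    refine ⟨m + 1, fun w hw hw' => ?_⟩
    have hwk : w.1.k = m := hw.1.k_eq hm.symm (Nat.lt_succ_self m)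
    rcases hw'.2 hxk hxA with b | ⟨b, l, hl, hag⟩
    · subst b
      exact top_ne m (hxk ▸ hwk)
    · have : l = m := by exact_mod_cast hl.symm.trans hwk
      subst this
      exact hz2 b l hm.symm (hag.trans (hw.1.1.anti (Nat.le_succ l)).symm)

instance : RegularSpace X :=
  RegularSpace.of_hasBasis basisX fun x n _ => isClosed_ballX x n

theorem inf_complete (S : Set X) (hS : S.Nonempty) (hinf : InfClosed S) :
    ∃ m, IsGLB S m ∧ m ∈ closure S := by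
  obtain ⟨s₁, hs₁, hmin⟩ := (wellFounded_lt (α := ℕ∞)).has_min ((fun s : X => s.1.k) '' S)
    (hS.image _)
  obtain ⟨s₁, hs₁, rfl⟩ := hs₁
  have hk₁ : ∀ s ∈ S, s₁.1.k ≤ s.1.k := fun s hs => not_lt.1 (hmin _ ⟨s, hs, rfl⟩)
  obtain ⟨s₀, hs₀, hk₀, ht₀⟩ : ∃ s₀ ∈ S, (∀ s ∈ S, s₀.1.k ≤ s.1.k) ∧
      (s₀.1.t → ∀ s ∈ S, s.1.t) := by
    by_cases h : ∀ s ∈ S, s.1.t
    · exact ⟨s₁, hs₁, hk₁, fun _ => h⟩
    · push Not at h
      obtain ⟨s₂, hs₂, ht⟩ := h
      exact ⟨s₁ ⊓ s₂, hinf hs₁ hs₂, fun s hs => (inf_le_left (b := s₂.1.k)).trans (hk₁ s hs),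
        fun h => absurd h.2 ht⟩
  let U : Set ℕ := ⋃ s ∈ S, s.1.A
  have hU : ∀ s ∈ S, s.1.A ⊆ U := fun s hs => subset_biUnion_of_mem (u := fun s : X => s.1.A) hs
  let m : X := ⟨⟨U, s₀.1.k, s₀.1.t ∧ U.Finite⟩, fun h =>
    ⟨(s₀.2 h.1).1, h.2, (s₀.2 h.1).2.2.mono (hU s₀ hs₀)⟩⟩
  have hfin : ∀ F : Set ℕ, F.Finite → F ⊆ U → ∃ s ∈ S, s ≤ s₀ ∧ F ⊆ s.1.A := by
    intro F hF
    induction F, hF using Set.Finite.induction_on with
    | empty => exact fun _ => ⟨s₀, hs₀, le_rfl, empty_subset _⟩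
    | @insert a F _ _ ih =>
      intro h
      obtain ⟨s, hs, h1, h2⟩ := ih ((subset_insert _ _).trans h)
      obtain ⟨s', hs', ha⟩ := mem_iUnion₂.1 (h (mem_insert _ _))
      exact ⟨s ⊓ s', hinf hs hs', inf_le_left.trans h1,
        insert_subset (Or.inr ha) (h2.trans subset_union_left)⟩
  refine ⟨m, ⟨fun s hs => ⟨hU s hs, hk₀ s hs, fun h => ht₀ h.1 s hs⟩, fun l hl => ?_⟩, ?_⟩
  · have hUl : U ⊆ l.1.A := iUnion₂_subset fun s hs => (hl hs).1
    exact ⟨hUl, (hl hs₀).2.1, fun h => ⟨(hl hs₀).2.2 h, (l.2 h).2.1.subset hUl⟩⟩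
  · by_cases hUf : U.Finite
    · obtain ⟨s, hs, h1, h2⟩ := hfin U hUf subset_rfl
      have : m = s := Subtype.ext (Pt.ext (h2.antisymm (hU s hs)) ((hk₀ s hs).antisymm h1.2.1)
        (propext ⟨fun h => ht₀ h.1 s hs, fun h => ⟨h1.2.2 h, hUf⟩⟩))
      rw [this]
      exact subset_closure hs
    · rw [mem_closure_iff_nhds_basis (basisX m)]
      intro n _
      obtain ⟨s, hs, h1, h2⟩ := hfin (U ∩ Set.Iio n) ((Set.finite_Iio n).inter_of_right _)
        inter_subset_left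
      refine ⟨s, hs, ⟨fun i hi => ⟨fun h => h2 ⟨h, hi⟩, fun h => hU s hs h⟩, ?_⟩,
        fun _ h => absurd h hUf⟩
      change s₀.1.k ⊓ _ = _
      rw [(hk₀ s hs).antisymm h1.2.1]

theorem sup_complete (C : Set X) (hC : C.Nonempty) (hch : IsChain (· ≤ ·) C) :
    ∃ m, IsLUB C m ∧ m ∈ closure (lowerClosure C : Set X) := by
  by_cases ht : ∃ c ∈ C, c.1.t
  · obtain ⟨c₀, hc₀, hmin⟩ := (wellFounded_lt (α := ℕ)).has_min
      ((fun c : X => c.1.A.ncard) '' {c | c ∈ C ∧ c.1.t}) (by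
        obtain ⟨c, hc⟩ := ht
        exact ⟨_, c, hc, rfl⟩)
    obtain ⟨c₀, ⟨hc₀, ht₀⟩, rfl⟩ := hc₀
    have hmax : ∀ c ∈ C, c ≤ c₀ := by
      intro c hc
      rcases hch.total hc hc₀ with h | h
      · exact h
      · have hct : c.1.t := h.2.2 ht₀
        have hle : c₀.1.A.ncard ≤ c.1.A.ncard := not_lt.1 (hmin _ ⟨c, ⟨hc, hct⟩, rfl⟩)
        have heq : c.1.A = c₀.1.A := Set.eq_of_subset_of_ncard_le h.1 hle (c₀.2 ht₀).2.1
        exact ⟨heq.ge, by rw [(c₀.2 ht₀).1]; exact le_top, fun _ => ht₀⟩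
    exact ⟨c₀, IsGreatest.isLUB ⟨hc₀, hmax⟩, subset_closure (subset_lowerClosure hc₀)⟩
  · push Not at ht
    let I : Set ℕ := ⋂ c ∈ C, c.1.A
    let k₁ : ℕ∞ := ⨆ c ∈ C, c.1.k
    have hI : ∀ c ∈ C, I ⊆ c.1.A := fun c hc => biInter_subset_of_mem (t := fun c : X => c.1.A) hc
    have hk₁ : ∀ c ∈ C, c.1.k ≤ k₁ := fun c hc => le_iSup₂ (f := fun (c : X) (_ : c ∈ C) => c.1.k) c hc
    let m : X := ⟨⟨I, k₁, False⟩, fun h => h.elim⟩
    refine ⟨m, ⟨fun c hc => ⟨hI c hc, hk₁ c hc, fun h => ht c hc h⟩, fun u hu =>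
      ⟨subset_iInter₂ fun c hc => (hu hc).1, iSup₂_le fun c hc => (hu hc).2.1,
        fun h => h.elim⟩⟩, ?_⟩
    rw [mem_closure_iff_nhds_basis (basisX m)]
    intro n _
    obtain ⟨c₀, hc₀, hk₀⟩ : ∃ c₀ ∈ C, k₁ ⊓ n ≤ c₀.1.k := by
      have hne : k₁ ⊓ n ≠ ⊤ := ne_top_of_le_ne_top (ENat.natCast_ne_top n) inf_le_right
      obtain ⟨j, hj⟩ := ENat.ne_top_iff_exists.1 hne
      rw [← hj]
      rcases j with _ | j
      · obtain ⟨c, hc⟩ := hC
        exact ⟨c, hc, by simp⟩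
      · have h1 : (j : ℕ∞) < k₁ := by
          have h2 : ((j + 1 : ℕ) : ℕ∞) ≤ k₁ := hj.le.trans inf_le_left
          exact lt_of_lt_of_le (by exact_mod_cast Nat.lt_succ_self j) h2
        obtain ⟨c, hc⟩ := lt_iSup_iff.1 h1
        obtain ⟨hc, hlt⟩ := lt_iSup_iff.1 hc
        refine ⟨c, hc, ?_⟩
        rw [Nat.cast_succ]
        exact Order.add_one_le_of_lt hlt
    have hag : ∀ l : ℕ, ∃ c ∈ C, c₀ ≤ c ∧ Agree l I c.1.A := by
      intro l
      induction l with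
      | zero => exact ⟨c₀, hc₀, le_rfl, fun i hi => absurd hi (Nat.not_lt_zero i)⟩
      | succ l ih =>
        obtain ⟨c, hc, h1, h2⟩ := ih
        have step : ∀ d ∈ C, c ≤ d → (l ∈ d.1.A → l ∈ I) → Agree (l + 1) I d.1.A := by
          intro d hd hcd hl i hi
          refine ⟨fun h => hI d hd h, fun h => ?_⟩
          rcases Nat.lt_succ_iff_lt_or_eq.1 hi with hi | rfl
          · exact (h2 i hi).2 (hcd.1 h)
          · exact hl h
        by_cases hl : l ∈ I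
        · exact ⟨c, hc, h1, step c hc le_rfl fun _ => hl⟩
        · have : ∃ d ∈ C, l ∉ d.1.A := by
            by_contra hcon
            push Not at hcon
            exact hl (mem_iInter₂.2 hcon)
          obtain ⟨d, hd, hld⟩ := this
          rcases hch.total hc hd with h | h
          · exact ⟨d, hd, h1.trans h, step d hd h fun h' => absurd h' hld⟩
          · exact ⟨c, hc, h1, step c hc le_rfl fun h' => absurd (h.1 h') hld⟩
    obtain ⟨c, hc, h1, h2⟩ := hag n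
    refine ⟨⟨⟨c.1.A, k₁ ⊓ n, False⟩, fun h => h.elim⟩,
      ⟨c, hc, subset_rfl, hk₀.trans h1.2.1, fun h => h.elim⟩, ⟨h2, ?_⟩,
      fun h _ => Or.inr ⟨fun h => h, n, ?_, h2⟩⟩
    · change k₁ ⊓ n = k₁ ⊓ n ⊓ n
      rw [inf_assoc, inf_idem]
    · change k₁ ⊓ n = n
      have h' : k₁ = ⊤ := h
      rw [h', top_inf_eq]

end Pool.Agent.MP_3bb15c_gt
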